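import Pool.Agent.H382R2.Final0

/-! Many isolated zeros force many large gaps between consecutive ordinates. -/

open Finset

namespace Pool.Agent.V8H6.GP

/-- chain counting -/
lemma chain (w : ℕ → ℝ) (a : ℕ) (hw : ∀ i, a ≤ i → 0 ≤ w i) (J : Finset ℕ) :
    ∀ b : ℕ, (∀ n ∈ J, a ≤ n ∧ n ≤ b) →
    (∀ n ∈ J, ∀ n' ∈ J, n < n' → 1 ≤ ∑ i ∈ Finset.Ico n n', w i) →
    (J.card : ℝ) ≤ 1 + ∑ i ∈ Finset.Ico a b, w i := by
  induction J using Finset.induction_on_max with
  | empty =>
    intro b _ _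
    have : 0 ≤ ∑ i ∈ Finset.Ico a b, w i :=
      Finset.sum_nonneg fun i hi => hw i (Finset.mem_Ico.1 hi).1
    simp only [Finset.card_empty, Nat.cast_zero]
    linarith
  | insert x J hx ih =>
    intro b hb h
    have hxJ : x ∉ J := fun h => lt_irrefl _ (hx x h)
    rw [Finset.card_insert_of_notMem hxJ]
    have hxb := hb x (Finset.mem_insert_self _ _)
    rcases J.eq_empty_or_nonempty with rfl | hne
    · have : 0 ≤ ∑ i ∈ Finset.Ico a b, w i :=
        Finset.sum_nonneg fun i hi => hw i (Finset.mem_Ico.1 hi).1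
      simp only [Finset.card_empty, zero_add, Nat.cast_one]
      linarith
    · have hm := J.max'_mem hne
      have h1 := ih (J.max' hne)
        (fun n hn => ⟨(hb n (Finset.mem_insert_of_mem hn)).1, J.le_max' n hn⟩)
        (fun n hn n' hn' => h n (Finset.mem_insert_of_mem hn) n' (Finset.mem_insert_of_mem hn'))
      have h2 := h _ (Finset.mem_insert_of_mem hm) x (Finset.mem_insert_self _ _) (hx _ hm)
      have ha := (hb _ (Finset.mem_insert_of_mem hm)).1
      have h3 : ∑ i ∈ Finset.Ico a (J.max' hne), w i + ∑ i ∈ Finset.Ico (J.max' hne) x, w i =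
          ∑ i ∈ Finset.Ico a x, w i := Finset.sum_Ico_consecutive w ha (hx _ hm).le
      have h4 : ∑ i ∈ Finset.Ico a x, w i + ∑ i ∈ Finset.Ico x b, w i =
          ∑ i ∈ Finset.Ico a b, w i := Finset.sum_Ico_consecutive w hxb.1 hxb.2
      have h5 : 0 ≤ ∑ i ∈ Finset.Ico x b, w i :=
        Finset.sum_nonneg fun i hi => hw i (hxb.1.trans (Finset.mem_Ico.1 hi).1)
      push_cast
      linarith

open SG

/-- identity of counts -/
lemma NZ_diff (a b : ℝ) (ha : 1 ≤ a) (hab : a ≤ b) :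
    NZ b = NZ a + H370.NN riemannZeta a b := by
  apply le_antisymm (SG.NZ_le_add a b ha)
  have hfin := H370.zset_finite H370.good_zeta a b ha
  have hNN : H370.NN riemannZeta a b = ∑ s ∈ hfin.toFinset, zmult s :=
    finsum_mem_eq_finite_toFinset_sum _ hfin
  rw [hNN]
  apply NZ_add_le a b hab
  intro s hs
  rw [Set.Finite.mem_toFinset] at hs
  exact ⟨⟨hs.2.2.2.2, hs.1, hs.2.1, by linarith [hs.2.2.1], hs.2.2.2.1⟩, hs.2.2.1⟩

lemma ord_NZ {s : ℂ} (h : riemannZeta s = 0) (h1 : 0 < s.re) (h2 : s.re < 1) (h3 : 0 < s.im) :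
    1 ≤ NZ s.im ∧ ord (NZ s.im) = s.im := by
  have h4 := zmult_pos h3 h
  have h5 := jump_one h h1 h2 h3 0 h3
  have h6 : 1 ≤ NZ s.im := by omega
  refine ⟨h6, le_antisymm ((ord_le_iff h6 _).2 le_rfl) ?_⟩
  by_contra hlt
  push Not at hlt
  have h7 := jump_one h h1 h2 h3 _ hlt
  have h8 := le_NZ_ord h6
  omega

/-- number of large gaps in a window -/
theorem large_gaps (A B d η : ℝ) (hA : 1 ≤ A) (hAB : A ≤ B) (hd : 0 < d) (hη : 0 ≤ η)
    (S : Finset ℂ) (hS : ∀ s ∈ S, s ∈ H370.zset riemannZeta A B)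
    (hsep : ∀ s ∈ S, ∀ s' ∈ S, s ≠ s' → d ≤ |s.im - s'.im|) :
    (S.card : ℝ) ≤ 1 +
      ({n : ℕ | 1 ≤ n ∧ A < ord n ∧ ord n ≤ B ∧ η ≤ ord (n + 1) - ord n}.ncard : ℝ) +
      η / d * ((NZ B : ℝ) - NZ A) := by
  classical
  set f : ℂ → ℕ := fun s => NZ s.im with hf
  have hford : ∀ s ∈ S, 1 ≤ f s ∧ ord (f s) = s.im := by
    intro s hs
    obtain ⟨a1, a2, a3, a4, a5⟩ := hS s hs
    exact ord_NZ a5 a1 a2 (by linarith)
  have hinj : Set.InjOn f S := by
    intro s hs s' hs' he
    by_contra hne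
    have h1 := (hford s hs).2
    have h2 := (hford s' hs').2
    rw [he] at h1
    have h3 := hsep s hs s' hs' hne
    rw [← h1, ← h2, sub_self, abs_zero] at h3
    linarith
  set J := S.image f with hJ
  have hcard : J.card = S.card := Finset.card_image_of_injOn hinj
  have hJb : ∀ n ∈ J, NZ A + 1 ≤ n ∧ n ≤ NZ B := by
    intro n hn
    rw [hJ, Finset.mem_image] at hn
    obtain ⟨s, hs, rfl⟩ := hn
    obtain ⟨a1, a2, a3, a4, a5⟩ := hS s hs
    have h1 := jump_one a5 a1 a2 (by linarith) A a3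
    have h2 := zmult_pos (by linarith : 0 < s.im) a5
    exact ⟨by simp only [hf]; omega, NZ_mono a4⟩
  set w : ℕ → ℝ := fun i => if η ≤ ord (i + 1) - ord i then 1 else (ord (i + 1) - ord i) / d
    with hwdef
  have hgap0 : ∀ i, 1 ≤ i → 0 ≤ ord (i + 1) - ord i := fun i hi =>
    sub_nonneg.2 (ord_mono hi (Nat.le_succ i))
  have hw0 : ∀ i, NZ A + 1 ≤ i → 0 ≤ w i := by
    intro i hi
    simp only [hwdef]
    split_ifs
    · exact zero_le_one
    · exact div_nonneg (hgap0 i (by omega)) hd.le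
  have hpair : ∀ n ∈ J, ∀ n' ∈ J, n < n' → 1 ≤ ∑ i ∈ Finset.Ico n n', w i := by
    intro n hn n' hn' hlt
    have hn1 := hJb n hn
    by_cases hex : ∃ i ∈ Finset.Ico n n', η ≤ ord (i + 1) - ord i
    · obtain ⟨i, hi, hi2⟩ := hex
      have h1 : w i = 1 := by simp only [hwdef]; rw [if_pos hi2]
      rw [← h1]
      refine Finset.single_le_sum (f := w) (fun j hj => hw0 j ?_) hi
      have := (Finset.mem_Ico.1 hj).1
      omega
    · push Not at hex
      have h1 : ∑ i ∈ Finset.Ico n n', w i = ∑ i ∈ Finset.Ico n n', (ord (i + 1) - ord i) / d := by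
        refine Finset.sum_congr rfl fun i hi => ?_
        simp only [hwdef]
        rw [if_neg (not_le.2 (hex i hi))]
      rw [h1, ← Finset.sum_div, Finset.sum_Ico_sub ord hlt.le, le_div_iff₀ hd, one_mul]
      rw [hJ, Finset.mem_image] at hn hn'
      obtain ⟨s, hs, rfl⟩ := hn
      obtain ⟨s', hs', rfl⟩ := hn'
      have hne : s' ≠ s := by
        rintro rfl
        exact lt_irrefl _ hlt
      have h2 := hsep s' hs' s hs hne
      rw [← (hford s hs).2, ← (hford s' hs').2] at h2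
      rwa [abs_of_nonneg (sub_nonneg.2 (ord_mono (hford s hs).1 hlt.le))] at h2
  have hmain := chain w (NZ A + 1) hw0 J (NZ B) hJb hpair
  rw [hcard] at hmain
  set G : Set ℕ := {n : ℕ | 1 ≤ n ∧ A < ord n ∧ ord n ≤ B ∧ η ≤ ord (n + 1) - ord n} with hG
  have hGfin : G.Finite := by
    refine (Set.finite_Iic (NZ B)).subset ?_
    rintro n ⟨h1, -, h3, -⟩
    exact (ord_le_iff h1 B).1 h3
  have hsum : ∑ i ∈ Finset.Ico (NZ A + 1) (NZ B), w i ≤
      (G.ncard : ℝ) + η / d * ((NZ B : ℝ) - NZ A) := by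
    have h1 : ∀ i ∈ Finset.Ico (NZ A + 1) (NZ B), w i ≤
        (if η ≤ ord (i + 1) - ord i then (1 : ℝ) else 0) + η / d := by
      intro i _
      simp only [hwdef]
      split_ifs with h
      · have : 0 ≤ η / d := by positivity
        linarith
      · push Not at h
        have : (ord (i + 1) - ord i) / d ≤ η / d := by gcongr
        linarith
    refine (Finset.sum_le_sum h1).trans ?_
    rw [Finset.sum_add_distrib, Finset.sum_const, nsmul_eq_mul, ← Finset.sum_filter,
      Finset.sum_const, nsmul_eq_mul, mul_one]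
    apply add_le_add
    · rw [Set.ncard_eq_toFinset_card G hGfin]
      exact_mod_cast Finset.card_le_card (fun i hi => by
        rw [Finset.mem_filter, Finset.mem_Ico] at hi
        rw [Set.Finite.mem_toFinset]
        obtain ⟨⟨h2, h3⟩, h4⟩ := hi
        have h5 : 1 ≤ i := by omega
        refine ⟨h5, ?_, (ord_le_iff h5 B).2 h3.le, h4⟩
        by_contra hle
        push Not at hle
        have := (ord_le_iff h5 A).1 hle
        omega)
    · rw [Nat.card_Ico, mul_comm]
      apply mul_le_mul_of_nonneg_left _ (by positivity)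
      have h6 : NZ A ≤ NZ B := NZ_mono hAB
      have h7 : (NZ B - (NZ A + 1)) ≤ NZ B - NZ A := by omega
      calc ((NZ B - (NZ A + 1) : ℕ) : ℝ) ≤ ((NZ B - NZ A : ℕ) : ℝ) := by exact_mod_cast h7
        _ = (NZ B : ℝ) - NZ A := by push_cast [Nat.cast_sub h6]; ring
  linarith

end Pool.Agent.V8H6.GP
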