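import Pool.Agent.V8H6.GP.Win

/-! Natural densities. -/

open Filter

namespace Pool.Agent.V8H6.GP

open SG

lemma cc_one : H295SI.cc 1 ≤ 1.3275 := by
  have h5 : H295SI.cc 1 = H370.cMTinv := by
    unfold H295SI.cc H370.cMTinv
    rfl
  rw [h5]
  exact Pool.Agent.W354.ZP.cMTinv_sharp

/-- the numbers `n ≤ NZ X` with a property -/
def QS (P : ℕ → Prop) (X : ℝ) : Set ℕ := {n : ℕ | 1 ≤ n ∧ ord n ≤ X ∧ P n}

lemma QS_fin (P : ℕ → Prop) (X : ℝ) : (QS P X).Finite := by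
  refine (Set.finite_Iic (NZ X)).subset ?_
  rintro n ⟨h1, h2, -⟩
  exact (ord_le_iff h1 X).1 h2

/-- summation over dyadic windows -/
lemma dyadic (P : ℕ → Prop) (a T0 : ℝ) (ha : 0 ≤ a) (hT0 : 0 < T0)
    (hw : ∀ T : ℝ, T0 ≤ T → a * ((NZ (2 * T) : ℝ) - NZ T) ≤
      ({n : ℕ | 1 ≤ n ∧ T < ord n ∧ ord n ≤ 2 * T ∧ P n}.ncard : ℝ)) :
    ∀ X : ℝ, T0 ≤ X → a * ((NZ X : ℝ) - NZ (2 * T0)) ≤ ((QS P X).ncard : ℝ) := by
  have key : ∀ k : ℕ, ∀ X : ℝ, T0 ≤ X → X ≤ 2 ^ (k + 1) * T0 →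
      a * ((NZ X : ℝ) - NZ (2 * T0)) ≤ ((QS P X).ncard : ℝ) := by
    intro k
    induction k with
    | zero =>
      intro X _ hX
      have h1 : NZ X ≤ NZ (2 * T0) := NZ_mono (by simpa using hX)
      have h2 : (NZ X : ℝ) ≤ NZ (2 * T0) := by exact_mod_cast h1
      have h3 : a * ((NZ X : ℝ) - NZ (2 * T0)) ≤ 0 := mul_nonpos_of_nonneg_of_nonpos ha (by linarith)
      exact h3.trans (by positivity)
    | succ k ih =>
      intro X hX1 hX2
      rcases le_or_gt X (2 * T0) with h | h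
      · have h1 : NZ X ≤ NZ (2 * T0) := NZ_mono h
        have h2 : (NZ X : ℝ) ≤ NZ (2 * T0) := by exact_mod_cast h1
        have h3 : a * ((NZ X : ℝ) - NZ (2 * T0)) ≤ 0 :=
          mul_nonpos_of_nonneg_of_nonpos ha (by linarith)
        exact h3.trans (by positivity)
      · have h1 := ih (X / 2) (by linarith) (by rw [pow_succ] at hX2; linarith)
        have h2 := hw (X / 2) (by linarith)
        have e : 2 * (X / 2) = X := by ring
        rw [e] at h2
        have h3 : ((QS P (X / 2)).ncard : ℝ) +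
            ({n : ℕ | 1 ≤ n ∧ X / 2 < ord n ∧ ord n ≤ X ∧ P n}.ncard : ℝ) ≤
            ((QS P X).ncard : ℝ) := by
          have hf : {n : ℕ | 1 ≤ n ∧ X / 2 < ord n ∧ ord n ≤ X ∧ P n}.Finite :=
            (QS_fin P X).subset fun n hn => ⟨hn.1, hn.2.2.1, hn.2.2.2⟩
          have hd : Disjoint (QS P (X / 2)) {n : ℕ | 1 ≤ n ∧ X / 2 < ord n ∧ ord n ≤ X ∧ P n} := by
            rw [Set.disjoint_left]
            rintro n hn hn'
            exact absurd hn.2.1 (not_le.2 hn'.2.1)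
          rw [← Nat.cast_add, ← Set.ncard_union_eq hd (QS_fin P _) hf]
          exact_mod_cast Set.ncard_le_ncard (by
            rintro n (hn | hn)
            · exact ⟨hn.1, hn.2.1.trans (by linarith), hn.2.2⟩
            · exact ⟨hn.1, hn.2.2.1, hn.2.2.2⟩) (QS_fin P X)
        have h4 : a * ((NZ X : ℝ) - NZ (2 * T0)) = a * ((NZ (X / 2) : ℝ) - NZ (2 * T0)) +
            a * ((NZ X : ℝ) - NZ (X / 2)) := by ring
        linarith
  intro X hX
  obtain ⟨k, hk⟩ := pow_unbounded_of_one_lt (X / T0) (by norm_num : (1 : ℝ) < 2)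
  refine key k X hX ?_
  rw [div_lt_iff₀ hT0] at hk
  rw [pow_succ]
  have : (0:ℝ) < 2 ^ k := by positivity
  nlinarith

/-- `ord N ≤ 2 N + C` -/
lemma ord_lin : ∃ C N0 : ℝ, 0 < C ∧ ∀ N : ℕ, N0 ≤ N → ord N ≤ 2 * N + C := by
  obtain ⟨T1, hT1, hdiff⟩ := diff_large 1 one_pos
  refine ⟨2 * T1 + 1, 1, by linarith, fun N hN => ?_⟩
  have hN1 : 1 ≤ N := by exact_mod_cast hN
  by_contra hcon
  push Not at hcon
  have h1 := hdiff ((2 * N + (2 * T1 + 1)) / 2) (by
    have : (0:ℝ) ≤ N := Nat.cast_nonneg _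
    linarith) ((2 * N + (2 * T1 + 1)) / 2) (by rw [Real.rpow_one]) le_rfl
  have h2 : ¬ (N ≤ NZ (2 * N + (2 * T1 + 1))) := by
    rw [← ord_le_iff hN1]
    exact not_le.2 hcon
  push Not at h2
  have e : (2 * (N : ℝ) + (2 * T1 + 1)) / 2 + (2 * N + (2 * T1 + 1)) / 2 =
    2 * N + (2 * T1 + 1) := by ring
  rw [e] at h1
  have h3 : (NZ (2 * N + (2 * T1 + 1)) : ℝ) < N := by exact_mod_cast h2
  have h4 : (0:ℝ) ≤ NZ ((2 * N + (2 * T1 + 1)) / 2) := Nat.cast_nonneg _
  linarith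

/-- from windows to natural density -/
theorem density (P : ℕ → Prop) (a ε : ℝ) (ha : 0 ≤ a) (ha1 : a ≤ 1) (hε : 0 < ε)
    (hw : ∃ T0 : ℝ, ∀ T : ℝ, T0 ≤ T → a * ((NZ (2 * T) : ℝ) - NZ T) ≤
      ({n : ℕ | 1 ≤ n ∧ T < ord n ∧ ord n ≤ 2 * T ∧ P n}.ncard : ℝ)) :
    ∀ᶠ N : ℕ in atTop, (a - ε) * N ≤ ({n : ℕ | 1 ≤ n ∧ n ≤ N ∧ P n}.ncard : ℝ) := by
  obtain ⟨T0', hw'⟩ := hw
  set T0 := max T0' 1 with hT0
  have hT01 : 1 ≤ T0 := le_max_right _ _
  obtain ⟨C, N0, hC, hord⟩ := ord_lin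
  obtain ⟨C0, hC0, hz⟩ := H370.zcount H370.good_zeta
  have hdy := dyadic P a T0 ha (by linarith) fun T hT => hw' T ((le_max_left _ _).trans hT)
  -- the logarithm is small
  have hlog : Tendsto (fun N : ℕ => C0 * Real.log (2 * N + C) / N) atTop (nhds 0) := by
    have h1 : (fun N : ℕ => Real.log (2 * (N : ℝ) + C)) =o[atTop] (fun N : ℕ => (N : ℝ)) := by
      have h2 : Tendsto (fun N : ℕ => 2 * (N : ℝ) + C) atTop atTop :=
        tendsto_atTop_add_const_right _ _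
          (tendsto_natCast_atTop_atTop.const_mul_atTop (by norm_num : (0:ℝ) < 2))
      have h3 := Real.isLittleO_log_id_atTop.comp_tendsto h2
      refine h3.trans_isBigO ?_
      rw [Asymptotics.isBigO_iff]
      refine ⟨2 + C, ?_⟩
      filter_upwards [eventually_ge_atTop 1] with N hN
      have hN1 : (1 : ℝ) ≤ N := by exact_mod_cast hN
      simp only [Function.comp, id, Real.norm_eq_abs]
      rw [abs_of_nonneg (by positivity), abs_of_nonneg (by positivity)]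
      nlinarith
    have h4 := h1.tendsto_div_nhds_zero
    have h5 := h4.const_mul C0
    simp only [mul_zero] at h5
    refine h5.congr fun N => ?_
    ring
  have hconst : Tendsto (fun N : ℕ => (NZ (2 * T0) : ℝ) / N) atTop (nhds 0) :=
    tendsto_const_nhds.div_atTop tendsto_natCast_atTop_atTop
  have hsum := hlog.add hconst
  rw [add_zero] at hsum
  have hordt : ∀ᶠ N : ℕ in atTop, max T0 3 + 1 ≤ ord N := ord_tendsto.eventually_ge_atTop _
  filter_upwards [hsum.eventually (gt_mem_nhds hε), hordt, eventually_ge_atTop 1,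
    tendsto_natCast_atTop_atTop.eventually_ge_atTop N0] with N h1 h2 h3 h4
  have hN0 : (0 : ℝ) < N := by exact_mod_cast h3
  have hO := hord N h4
  have h5 : max T0 3 ≤ ord N - 1 := by linarith
  have h6 : T0 ≤ ord N - 1 := (le_max_left _ _).trans h5
  have h7 : 3 ≤ ord N - 1 := (le_max_right _ _).trans h5
  have h8 := hdy (ord N - 1) h6
  have h9 : (N : ℝ) ≤ NZ (ord N - 1) + C0 * Real.log (2 * N + C) := by
    have b1 := le_NZ_ord h3
    have b2 := NZ_le_add (ord N - 1) (ord N) (by linarith)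
    have b3 := H370.NN_mono H370.good_zeta (a := ord N - 1) (b := ord N) (a' := ord N - 1)
      (b' := ord N + 1) (by linarith) le_rfl (by linarith)
    have b4 := hz (ord N) (by linarith)
    have b5 : Real.log (ord N) ≤ Real.log (2 * N + C) := Real.log_le_log (by linarith) hO
    have b6 : (N : ℝ) ≤ NZ (ord N - 1) + H370.NN riemannZeta (ord N - 1) (ord N + 1) := by
      exact_mod_cast b1.trans (b2.trans (Nat.add_le_add_left b3 _))
    have b7 : C0 * Real.log (ord N) ≤ C0 * Real.log (2 * N + C) := by gcongr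
    linarith
  have h10 : (C0 * Real.log (2 * N + C) + NZ (2 * T0)) < ε * N := by
    rw [← add_div, div_lt_iff₀ hN0] at h1
    exact h1
  have h11 : (QS P (ord N - 1)).ncard ≤ ({n : ℕ | 1 ≤ n ∧ n ≤ N ∧ P n}).ncard := by
    apply Set.ncard_le_ncard
    · rintro n ⟨c1, c2, c3⟩
      refine ⟨c1, ?_, c3⟩
      by_contra hlt
      push Not at hlt
      have := ord_mono h3 hlt.le
      linarith
    · refine (Set.finite_Iic N).subset ?_
      intro n hn
      exact hn.2.1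
  have h12 : ((QS P (ord N - 1)).ncard : ℝ) ≤ ({n : ℕ | 1 ≤ n ∧ n ≤ N ∧ P n}.ncard : ℝ) := by
    exact_mod_cast h11
  have h13 : a * ((N : ℝ) - C0 * Real.log (2 * N + C) - NZ (2 * T0)) ≤
      a * ((NZ (ord N - 1) : ℝ) - NZ (2 * T0)) := mul_le_mul_of_nonneg_left (by linarith) ha
  have h14 : a * (C0 * Real.log (2 * N + C) + NZ (2 * T0)) ≤ ε * N := by
    have h15 : 0 ≤ C0 * Real.log (2 * N + C) + NZ (2 * T0) := by
      have : 0 ≤ Real.log (2 * N + C) := Real.log_nonneg (by linarith)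
      positivity
    nlinarith
  nlinarith

end Pool.Agent.V8H6.GP
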