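import Pool.Agent.V8H6.GP.Dens

/-! Lower bounds and exponents of gaps. -/

open Filter

namespace Pool.Agent.V8H6.GP

open SG

/-- lower density of the gaps at least `δ / log n` -/
theorem dens_gap (ε : ℝ) (hε : 0 < ε) : ∃ δ : ℝ, 0 < δ ∧ ∀ᶠ N : ℕ in atTop,
    (0.6725 - ε) * N ≤
      ({n : ℕ | 1 ≤ n ∧ n ≤ N ∧ δ / Real.log n ≤ ord (n + 1) - ord n}.ncard : ℝ) := by
  by_cases hbig : 0.6725 - ε ≤ 0
  · refine ⟨1, one_pos, Eventually.of_forall fun N => ?_⟩
    have h1 : (0.6725 - ε) * (N : ℝ) ≤ 0 := mul_nonpos_of_nonpos_of_nonneg hbig (Nat.cast_nonneg _)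
    exact h1.trans (Nat.cast_nonneg _)
  push Not at hbig
  obtain ⟨δ, T0, hδ, hT0, hw⟩ := window_small 1 (ε / 4) one_pos le_rfl (by positivity)
  obtain ⟨T1, hT1, hdiff⟩ := diff_large 1 one_pos
  refine ⟨δ / 2, by positivity, ?_⟩
  have hd := density (fun n => δ / 2 / Real.log n ≤ ord (n + 1) - ord n) (0.6725 - ε / 4) (ε / 2)
    (by linarith) (by norm_num; linarith) (by positivity) ⟨max T0 (2 * T1), fun T hT => ?_⟩
  · filter_upwards [hd] with N hN
    refine le_trans ?_ hN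
    apply mul_le_mul_of_nonneg_right _ (Nat.cast_nonneg _)
    linarith
  · have hTT0 : T0 ≤ T := (le_max_left _ _).trans hT
    have hTT1 : 2 * T1 ≤ T := (le_max_right _ _).trans hT
    have h1 := hw T hTT0 T (by rw [Real.rpow_one]) le_rfl
    have e : T + T = 2 * T := by ring
    rw [e] at h1
    have hmono : (NZ T : ℝ) ≤ NZ (2 * T) := by exact_mod_cast NZ_mono (by linarith : T ≤ 2 * T)
    have h2 : (0.6725 - ε / 4) * ((NZ (2 * T) : ℝ) - NZ T) ≤
        (2 - H295SI.cc 1 - ε / 4) * ((NZ (2 * T) : ℝ) - NZ T) := by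
      apply mul_le_mul_of_nonneg_right _ (by linarith)
      have := cc_one
      linarith
    refine h2.trans (h1.trans ?_)
    have hlog : 0 < Real.log T := Real.log_pos (by linarith)
    exact_mod_cast Set.ncard_le_ncard (by
      rintro n ⟨a1, a2, a3, a4⟩
      refine ⟨a1, a2, a3, le_trans ?_ a4⟩
      have h3 := hdiff (T / 2) (by linarith) (T / 2) (by rw [Real.rpow_one]) le_rfl
      have e2 : T / 2 + T / 2 = T := by ring
      rw [e2] at h3
      have h4 : NZ T < n := by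
        by_contra hle
        push Not at hle
        have := (ord_le_iff a1 T).2 hle
        linarith
      have h5 : (NZ T : ℝ) < n := by exact_mod_cast h4
      have h6 : T / 2 ≤ n := by
        have : (0:ℝ) ≤ NZ (T / 2) := Nat.cast_nonneg _
        linarith
      have h7 : Real.log T / 2 ≤ Real.log n := by
        have h8 : Real.log T ≤ Real.log ((n : ℝ) ^ 2) := by
          apply Real.log_le_log (by linarith)
          nlinarith
        rw [Real.log_pow] at h8
        push_cast at h8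
        linarith
      have h9 : 0 < Real.log T / 2 := by positivity
      have h10 : 0 < Real.log n := by linarith
      rw [div_div, div_le_div_iff₀ (by positivity) hlog]
      nlinarith) (by
        refine (Set.finite_Iic (NZ (2 * T))).subset ?_
        rintro n ⟨b1, b2, b3, b4⟩
        exact (ord_le_iff b1 (2 * T)).1 b3)

/-- few gaps are long -/
lemma few_long (M : ℝ) (hM : 0 < M) : ∃ C : ℝ, ∀ᶠ N : ℕ in atTop,
    M * ({n : ℕ | 1 ≤ n ∧ n ≤ N ∧ M < ord (n + 1) - ord n}.ncard : ℝ) ≤ 2 * N + C := by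
  classical
  obtain ⟨C, N0, hC, hord⟩ := ord_lin
  refine ⟨2 + C, ?_⟩
  filter_upwards [tendsto_natCast_atTop_atTop.eventually_ge_atTop N0] with N hN
  have h1 := hord (N + 1) (by push_cast; linarith)
  push_cast at h1
  set B : Set ℕ := {n : ℕ | 1 ≤ n ∧ n ≤ N ∧ M < ord (n + 1) - ord n} with hB
  have hBf : B.Finite := (Set.finite_Iic N).subset fun n hn => hn.2.1
  have h2 : M * (B.ncard : ℝ) ≤ ∑ n ∈ hBf.toFinset, (ord (n + 1) - ord n) := by
    rw [Set.ncard_eq_toFinset_card B hBf, mul_comm, ← nsmul_eq_mul, ← Finset.sum_const]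
    refine Finset.sum_le_sum fun n hn => ?_
    rw [Set.Finite.mem_toFinset] at hn
    exact hn.2.2.le
  have h3 : ∑ n ∈ hBf.toFinset, (ord (n + 1) - ord n) ≤
      ∑ n ∈ Finset.Ico 1 (N + 1), (ord (n + 1) - ord n) := by
    apply Finset.sum_le_sum_of_subset_of_nonneg
    · intro n hn
      rw [Set.Finite.mem_toFinset] at hn
      rw [Finset.mem_Ico]
      exact ⟨hn.1, Nat.lt_succ_of_le hn.2.1⟩
    · intro n hn _
      rw [Finset.mem_Ico] at hn
      exact sub_nonneg.2 (ord_mono hn.1 (Nat.le_succ n))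
  rw [Finset.sum_Ico_sub ord (by omega)] at h3
  have h4 := ord_pos (le_refl 1)
  linarith

/-- **the exponents of 67.25 percent of the gaps tend to zero** -/
theorem dens_expo (ε : ℝ) (hε : 0 < ε) : ∀ᶠ N : ℕ in atTop,
    (0.6725 - ε) * N ≤ ({n : ℕ | 1 ≤ n ∧ n ≤ N ∧ (n : ℝ) ^ (-ε) ≤ ord (n + 1) - ord n ∧
      ord (n + 1) - ord n ≤ (n : ℝ) ^ ε}.ncard : ℝ) := by
  obtain ⟨δ, hδ, hd⟩ := dens_gap (ε / 4) (by positivity)
  set M : ℝ := 12 / ε with hM
  have hM0 : 0 < M := by positivity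
  obtain ⟨C, hC⟩ := few_long M hM0
  -- a threshold
  have hlim : Tendsto (fun n : ℕ => (n : ℝ) ^ ε) atTop atTop :=
    (tendsto_rpow_atTop hε).comp tendsto_natCast_atTop_atTop
  have hlim2 : ∀ᶠ n : ℕ in atTop, Real.log n ≤ δ * (n : ℝ) ^ ε := by
    have h1 := (isLittleO_log_rpow_atTop hε).bound hδ
    have h2 := tendsto_natCast_atTop_atTop (R := ℝ) |>.eventually h1
    filter_upwards [h2, eventually_ge_atTop 1] with n hn hn1
    rw [Real.norm_eq_abs, Real.norm_eq_abs, abs_of_nonneg (a := (n : ℝ) ^ ε) (by positivity)] at hn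
    exact (le_abs_self _).trans hn
  obtain ⟨n0, hn0⟩ := (hlim2.and ((hlim.eventually_ge_atTop M).and
    (eventually_ge_atTop 2))).exists_forall_of_atTop
  filter_upwards [hd, hC, eventually_ge_atTop (⌈4 * (n0 + 1) / ε⌉₊),
    eventually_ge_atTop (⌈|C|⌉₊)] with N h1 h2 h3 h4
  have h3' : 4 * ((n0 : ℝ) + 1) / ε ≤ N := Nat.ceil_le.1 h3
  have h4' : |C| ≤ N := Nat.ceil_le.1 h4
  rw [div_le_iff₀ hε] at h3'
  set A : Set ℕ := {n : ℕ | 1 ≤ n ∧ n ≤ N ∧ δ / Real.log n ≤ ord (n + 1) - ord n} with hA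
  set B : Set ℕ := {n : ℕ | 1 ≤ n ∧ n ≤ N ∧ M < ord (n + 1) - ord n} with hB
  set G : Set ℕ := {n : ℕ | 1 ≤ n ∧ n ≤ N ∧ (n : ℝ) ^ (-ε) ≤ ord (n + 1) - ord n ∧
      ord (n + 1) - ord n ≤ (n : ℝ) ^ ε} with hG
  have hBf : B.Finite := (Set.finite_Iic N).subset fun n hn => hn.2.1
  have hGf : G.Finite := (Set.finite_Iic N).subset fun n hn => hn.2.1
  have hsub : A ⊆ (G ∪ B) ∪ Set.Iic n0 := by
    rintro n ⟨a1, a2, a3⟩
    by_cases hn : n ≤ n0
    · exact Or.inr hn
    push Not at hn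
    left
    by_cases hb : M < ord (n + 1) - ord n
    · exact Or.inr ⟨a1, a2, hb⟩
    push Not at hb
    left
    obtain ⟨b1, b2, b3⟩ := hn0 n hn.le
    refine ⟨a1, a2, le_trans ?_ a3, hb.trans b2⟩
    have hn2 : (2 : ℝ) ≤ n := by exact_mod_cast b3
    have hlog : 0 < Real.log n := Real.log_pos (by linarith)
    have hp : 0 < (n : ℝ) ^ ε := by positivity
    rw [Real.rpow_neg (by linarith), inv_eq_one_div, div_le_div_iff₀ hp hlog]
    linarith
  have hcard : (A.ncard : ℝ) ≤ G.ncard + B.ncard + (n0 + 1) := by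
    have c1 := Set.ncard_le_ncard hsub ((hGf.union hBf).union (Set.finite_Iic n0))
    have c2 := Set.ncard_union_le (G ∪ B) (Set.Iic n0)
    have c3 := Set.ncard_union_le G B
    have c4 : (Set.Iic n0 : Set ℕ).ncard = n0 + 1 := by
      rw [← Finset.coe_Iic, Set.ncard_coe_finset, Nat.card_Iic]
    have : A.ncard ≤ G.ncard + B.ncard + (n0 + 1) := by omega
    exact_mod_cast this
  have h5 : (B.ncard : ℝ) ≤ ε / 4 * N := by
    have c1 : M * (B.ncard : ℝ) ≤ 2 * N + C := h2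
    have c2 : C ≤ |C| := le_abs_self C
    have c3 : (B.ncard : ℝ) = (M * (B.ncard : ℝ)) * (ε / 12) := by
      rw [hM]; field_simp
    rw [c3]
    have c4 : (M * (B.ncard : ℝ)) * (ε / 12) ≤ (2 * N + |C|) * (ε / 12) := by
      apply mul_le_mul_of_nonneg_right _ (by positivity)
      linarith
    refine c4.trans ?_
    nlinarith
  nlinarith

end Pool.Agent.V8H6.GP
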