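import Pool.Agent.V8H6.GP.Comb
import Pool.Agent.TH803.CL.Win
import Pool.Agent.H295R2.Iso.B
import Pool.Agent.W354.ZP.Num

/-! Large gaps in windows. -/

open Filter

namespace Pool.Agent.V8H6.GP

open SG

/-- many zeros in short intervals -/
lemma diff_large (h : ℝ) (hh0 : 0 < h) : ∃ T0 : ℝ, 10 ≤ T0 ∧ ∀ T : ℝ, T0 ≤ T →
    ∀ H : ℝ, T ^ h ≤ H → H ≤ T → H ≤ (NZ (T + H) : ℝ) - NZ T := by
  obtain ⟨C, hC, hcnt⟩ := H965SI.countShort riemannZeta H370.good_zeta
  obtain ⟨T1, hT1⟩ := (tendsto_atTop.mp Real.tendsto_log_atTop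
    (2 * Real.pi * (1 + C + 4 * C / h ^ 2))).exists_forall_of_atTop
  obtain ⟨T2, hT2⟩ := (tendsto_atTop.mp (tendsto_rpow_atTop hh0) 3).exists_forall_of_atTop
  refine ⟨max (max T1 T2) 10, le_max_right _ _, fun T hT H hH1 hH2 => ?_⟩
  have hTT1 : T1 ≤ T := ((le_max_left _ _).trans (le_max_left _ _)).trans hT
  have hTT2 : T2 ≤ T := ((le_max_right _ _).trans (le_max_left _ _)).trans hT
  have hT10 : 10 ≤ T := (le_max_right _ _).trans hT
  have hH3 : 3 ≤ H := (hT2 T hTT2).trans hH1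
  have h1 := (hcnt T hT10 H hH3 hH2 T (T + H) le_rfl (by linarith) (by linarith) le_rfl).1
  have h2 := NZ_diff T (T + H) (by linarith) (by linarith)
  have h3 : ((NZ (T + H) : ℕ) : ℝ) - NZ T = H370.NN riemannZeta T (T + H) := by
    rw [h2]; push_cast; ring
  rw [h3]
  have hL := hT1 T hTT1
  have hpi := Real.pi_pos
  have hlog : Real.log T ≤ T ^ (h / 2) / (h / 2) := Real.log_le_rpow_div (by linarith) (by linarith)
  have hlog0 : 0 ≤ Real.log T := Real.log_nonneg (by linarith)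
  have hsq : (Real.log T) ^ 2 ≤ 4 / h ^ 2 * T ^ h := by
    have e : (T ^ (h / 2) / (h / 2)) ^ 2 = 4 / h ^ 2 * T ^ h := by
      have e2 : T ^ (h / 2) * T ^ (h / 2) = T ^ h := by
        rw [← Real.rpow_add (by linarith)]; congr 1; ring
      rw [← e2]; field_simp; norm_num
    rw [← e]
    exact pow_le_pow_left₀ hlog0 hlog 2
  have hTh0 : 0 < T ^ h := Real.rpow_pos_of_pos (by linarith) _
  have hsq2 : C * (Real.log T) ^ 2 ≤ 4 * C / h ^ 2 * H := by
    calc C * (Real.log T) ^ 2 ≤ C * (4 / h ^ 2 * T ^ h) := by gcongr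
      _ = 4 * C / h ^ 2 * T ^ h := by ring
      _ ≤ 4 * C / h ^ 2 * H := by gcongr
  have h4 := (abs_le.1 h1).1
  have h5 : H * (1 + C + 4 * C / h ^ 2) ≤ H * Real.log T / (2 * Real.pi) := by
    rw [le_div_iff₀ (by positivity)]
    calc H * (1 + C + 4 * C / h ^ 2) * (2 * Real.pi) =
        H * (2 * Real.pi * (1 + C + 4 * C / h ^ 2)) := by ring
      _ ≤ H * Real.log T := by gcongr
  nlinarith

/-- the numbers `n` with `A < ord n ≤ B` and a gap at least `η` -/
def GS (A B η : ℝ) : Set ℕ := {n : ℕ | 1 ≤ n ∧ A < ord n ∧ ord n ≤ B ∧ η ≤ ord (n + 1) - ord n}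

/-- **explicit form** -/
theorem window_r (h r x ε : ℝ) (hh0 : 0 < h) (hh1 : h ≤ 1) (hr0 : 0 < r) (hr : h * r ≤ 1 / 3)
    (hx : 0 ≤ x) (hε : 0 < ε) :
    ∃ T0 : ℝ, ∀ T : ℝ, T0 ≤ T → ∀ H : ℝ, T ^ h ≤ H → H ≤ T →
      (1 - (H295Iso.c0 h - 1) / H344.KK (h * r) ^ 2 - x / r - ε) * ((NZ (T + H) : ℝ) - NZ T) ≤
        ((GS T (T + H) (x * (2 * Real.pi / Real.log T))).ncard : ℝ) := by
  classical
  obtain ⟨T1, hT1, hiso⟩ := H295Iso.iso_short H370.good_zeta hh0 hh1 hr0.le hr (half_pos hε)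
  obtain ⟨T2, hT2, hdiff⟩ := diff_large h hh0
  obtain ⟨T3, hT3⟩ := (tendsto_atTop.mp (tendsto_rpow_atTop hh0) (2 / ε)).exists_forall_of_atTop
  refine ⟨max (max T1 T2) T3, fun T hT H hH1 hH2 => ?_⟩
  have hTT1 : T1 ≤ T := ((le_max_left _ _).trans (le_max_left _ _)).trans hT
  have hTT2 : T2 ≤ T := ((le_max_right _ _).trans (le_max_left _ _)).trans hT
  have hTT3 : T3 ≤ T := (le_max_right _ _).trans hT
  have hT10 : 10 ≤ T := hT1.trans hTT1
  have hlog : 0 < Real.log T := Real.log_pos (by linarith)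
  have hpi := Real.pi_pos
  have a1 := hiso T hTT1 H hH1 hH2
  have a2 := hdiff T hTT2 H hH1 hH2
  have a3 := (hT3 T hTT3).trans hH1
  have hH0 : 0 < H := lt_of_lt_of_le (by positivity) a3
  have e1 : ((NZ (T + H) : ℕ) : ℝ) - NZ T = H370.NN riemannZeta T (T + H) := by
    rw [NZ_diff T (T + H) (by linarith) (by linarith)]; push_cast; ring
  set d : ℝ := 2 * Real.pi * r / Real.log T with hd
  have hd0 : 0 < d := by positivity
  set W := H295Iso.isoSet riemannZeta T H d (4 * Real.pi / 5 / (h * Real.log T)) with hW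
  have hWfin : W.Finite :=
    (H370.zset_finite H370.good_zeta T (T + H) (by linarith)).subset fun s hs => hs.1
  have hWmem : ∀ s ∈ hWfin.toFinset, s ∈ W := fun s hs => by
    rwa [Set.Finite.mem_toFinset] at hs
  have a4 := large_gaps T (T + H) d (x * (2 * Real.pi / Real.log T)) (by linarith) (by linarith) hd0
    (by positivity) hWfin.toFinset (fun s hs => (hWmem s hs).1) (by
      intro s hs s' hs' hne
      obtain ⟨b1, b2, b3, b4⟩ := hWmem s hs
      obtain ⟨c1, c2, c3, c4⟩ := hWmem s' hs'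
      by_contra hlt
      push Not at hlt
      rw [abs_sub_comm] at hlt
      have := b4 s' c1.2.2.2.2 c1.1 c1.2.1 (Ne.symm hne) hlt.le
      rw [c2, sub_self, abs_zero] at this
      have h2 : 0 < 4 * Real.pi / 5 / (h * Real.log T) := by positivity
      linarith)
  have e2 : (hWfin.toFinset.card : ℝ) =
      H295Iso.isoN riemannZeta T H d (4 * Real.pi / 5 / (h * Real.log T)) := by
    unfold H295Iso.isoN
    rw [← hW, Set.ncard_eq_toFinset_card W hWfin]
  rw [e2] at a4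
  have e3 : x * (2 * Real.pi / Real.log T) / d = x / r := by
    rw [hd]; field_simp
  rw [e3] at a4
  have a5 : 1 ≤ ε / 2 * ((NZ (T + H) : ℝ) - NZ T) := by
    have h1 : 2 / ε ≤ (NZ (T + H) : ℝ) - NZ T := a3.trans a2
    rw [div_le_iff₀ hε] at h1
    linarith
  rw [← e1] at a1
  unfold GS
  have e4 : (1 - (H295Iso.c0 h - 1) / H344.KK (h * r) ^ 2 - x / r - ε) *
      ((NZ (T + H) : ℝ) - NZ T) = (1 - (H295Iso.c0 h - 1) / H344.KK (h * r) ^ 2 - ε / 2) *
      ((NZ (T + H) : ℝ) - NZ T) - x / r * ((NZ (T + H) : ℝ) - NZ T) -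
      ε / 2 * ((NZ (T + H) : ℝ) - NZ T) := by ring
  rw [e4]
  linarith

/-- **form with a small constant** -/
theorem window_small (h ε : ℝ) (hh0 : 0 < h) (hh1 : h ≤ 1) (hε : 0 < ε) :
    ∃ δ T0 : ℝ, 0 < δ ∧ 10 ≤ T0 ∧ ∀ T : ℝ, T0 ≤ T → ∀ H : ℝ, T ^ h ≤ H → H ≤ T →
      (2 - H295SI.cc h - ε) * ((NZ (T + H) : ℝ) - NZ T) ≤
        ((GS T (T + H) (δ / Real.log T)).ncard : ℝ) := by
  classical
  set e : ℝ := min ε 1 with he
  have he0 : 0 < e := lt_min hε one_pos
  have he1 : e ≤ 1 := min_le_right _ _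
  have heε : e ≤ ε := min_le_left _ _
  set δ : ℝ := e / 20 with hδ
  have hδ0 : 0 < δ := by positivity
  have h74 : 74 * δ ^ 2 ≤ e / 4 := by
    rw [hδ]; nlinarith
  obtain ⟨T1, hT1, hiso⟩ := TH803CL.iso_main H370.good_zeta h (e / 4) δ hh0 hh1 (by positivity) hδ0
    (by rw [hδ]; linarith)
  obtain ⟨T2, hT2, hdiff⟩ := diff_large h hh0
  obtain ⟨T3, hT3⟩ := (tendsto_atTop.mp (tendsto_rpow_atTop hh0) (4 / e)).exists_forall_of_atTop
  refine ⟨e / 4 * δ, max (max T1 T2) T3, by positivity,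
    hT1.trans ((le_max_left _ _).trans (le_max_left _ _)), fun T hT H hH1 hH2 => ?_⟩
  have hTT1 : T1 ≤ T := ((le_max_left _ _).trans (le_max_left _ _)).trans hT
  have hTT2 : T2 ≤ T := ((le_max_right _ _).trans (le_max_left _ _)).trans hT
  have hTT3 : T3 ≤ T := (le_max_right _ _).trans hT
  have hT10 : 10 ≤ T := hT1.trans hTT1
  have hlog : 0 < Real.log T := Real.log_pos (by linarith)
  have a1 := hiso T hTT1 H hH1 hH2
  have a2 := hdiff T hTT2 H hH1 hH2
  have a3 := (hT3 T hTT3).trans hH1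
  have hH0 : 0 < H := lt_of_lt_of_le (by positivity) a3
  have e1 : ((NZ (T + H) : ℕ) : ℝ) - NZ T = H370.NN riemannZeta T (T + H) := by
    rw [NZ_diff T (T + H) (by linarith) (by linarith)]; push_cast; ring
  have hmem : ∀ s ∈ TH803CL.isoA riemannZeta T (T + H) (δ / Real.log T),
      s ∈ H370.zset riemannZeta T (T + H) ∧ s.re = 1 / 2 ∧
      ∀ s' : ℂ, riemannZeta s' = 0 → 0 < s'.re → s'.re < 1 → s' ≠ s →
        δ / Real.log T ≤ ‖s - s'‖ := by
    intro s hs
    unfold TH803CL.isoA at hs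
    rw [Finset.mem_filter] at hs
    exact ⟨(H370.mem_Zf H370.good_zeta (by linarith)).mp hs.1, hs.2.1, hs.2.2.2⟩
  have a4 := large_gaps T (T + H) (δ / Real.log T) (e / 4 * δ / Real.log T) (by linarith)
    (by linarith) (by positivity) (by positivity)
    (TH803CL.isoA riemannZeta T (T + H) (δ / Real.log T)) (fun s hs => (hmem s hs).1) (by
      intro s hs s' hs' hne
      obtain ⟨b1, b2, b3⟩ := hmem s hs
      obtain ⟨c1, c2, c3⟩ := hmem s' hs'
      have h1 := b3 s' c1.2.2.2.2 c1.1 c1.2.1 (Ne.symm hne)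
      have h2 : s - s' = Complex.I * ((s.im - s'.im : ℝ) : ℂ) := by
        apply Complex.ext
        · simp [b2, c2]
        · simp
      rwa [h2, norm_mul, Complex.norm_I, one_mul, Complex.norm_real, Real.norm_eq_abs] at h1)
  have e3 : e / 4 * δ / Real.log T / (δ / Real.log T) = e / 4 := by field_simp
  rw [e3] at a4
  rw [← e1] at a1
  set D := ((NZ (T + H) : ℝ) - NZ T) with hD
  have hD0 : 0 ≤ D := hH0.le.trans a2
  have a5 : 1 ≤ e / 4 * D := by
    have h1 : 4 / e ≤ D := a3.trans a2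
    rw [div_le_iff₀ he0] at h1
    linarith
  unfold GS
  have a6 : (2 - H295SI.cc h - ε) * D ≤ (2 - H295SI.cc h - e) * D :=
    mul_le_mul_of_nonneg_right (by linarith) hD0
  have a7 : (2 - H295SI.cc h - e) * D + e / 4 * D + e / 4 * D ≤
      (2 - H295SI.cc h - 74 * δ ^ 2 - e / 4) * D := by
    have := mul_le_mul_of_nonneg_right h74 hD0
    nlinarith
  linarith

end Pool.Agent.V8H6.GP
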